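import Pool.Agent.MP_5d10af_nt.Mg.Q2_Fin
import Pool.Agent.MP_5d10af_nt.Mg.Expl

set_option autoImplicit false

namespace Pool.Agent.Results.MP_5d10af_nt.SecondTerm

open Filter Topology Asymptotics Real Pool.Agent.MP_5d10af_nt Pool.Agent.MP_5d10af_nt.H69

/-- The error term `S X - c X`, `c = lim S X / X = 6 / π ^ 2`, is asymptotic to a negative multiple
of `X / √(log X)`. So it is at most `X / log X` for all large `X`, it is larger than `X / log X` in
absolute value for all large `X`, and it has no power saving. -/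
theorem result : ∃ c κ : ℝ, c = 6 / π ^ 2 ∧ 0 < κ ∧
    Tendsto (fun X : ℝ => S X / X) atTop (𝓝 c) ∧
    Tendsto (fun X : ℝ => (S X - c * X) / (X / √(log X))) atTop (𝓝 (-κ)) ∧
    (∀ᶠ X : ℝ in atTop, S X - c * X ≤ X / log X ∧ X / log X < |S X - c * X|) ∧
    ∀ δ : ℝ, 0 < δ → ¬ (fun X : ℝ => S X - c * X) =O[atTop] fun X : ℝ => X ^ (1 - δ) := by
  obtain ⟨κ, hκ, h1, h2⟩ := Q2.second expl
  have h3 : ∀ᶠ X : ℝ in atTop, S X - 6 / π ^ 2 * X < -(X / log X) ∧ 0 < X / log X := by
    filter_upwards [h2.eventually (gt_mem_nhds (show -κ < -(κ / 2) by linarith)),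
      eventually_gt_atTop 1,
      (tendsto_sqrt_atTop.comp tendsto_log_atTop).eventually_ge_atTop (2 / κ)] with X h hX hs
    have l0 := log_pos hX
    have s0 := sqrt_pos.2 l0
    have p0 : 0 < X / √(log X) := div_pos (by linarith) s0
    have e : X / log X = X / √(log X) / √(log X) := by rw [div_div, mul_self_sqrt l0.le]
    have h4 : X / √(log X) / √(log X) ≤ κ / 2 * (X / √(log X)) := by
      rw [div_le_iff₀ s0, mul_comm (κ / 2), mul_assoc]
      refine le_mul_of_one_le_right p0.le ?_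
      have := (div_le_iff₀ hκ).1 hs
      simp only [Function.comp] at this
      linarith
    rw [div_lt_iff₀ p0] at h
    exact ⟨by rw [e]; linarith, div_pos (by linarith) l0⟩
  refine ⟨_, κ, rfl, hκ, h1, h2, h3.mono fun X h => ⟨by linarith [h.1, h.2],
    lt_of_lt_of_le (by linarith [h.1]) (neg_le_abs _)⟩, fun δ hδ hO => ?_⟩
  obtain ⟨C, hC, hO⟩ := hO.exists_pos
  have hl := (isLittleO_log_rpow_atTop hδ).bound (c := 1 / C) (by positivity)
  obtain ⟨X, ⟨h4, -⟩, h5, h6, h7⟩ := (h3.and (hO.bound.and (hl.and (eventually_gt_atTop 1)))).exists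
  have X0 : 0 < X := by linarith
  have l0 := log_pos h7
  rw [norm_eq_abs, norm_of_nonneg (by positivity)] at h5
  rw [norm_of_nonneg l0.le, norm_of_nonneg (by positivity)] at h6
  have h8 : X / log X < C * X ^ (1 - δ) := lt_of_lt_of_le (by linarith) ((neg_le_abs _).trans h5)
  rw [div_lt_iff₀ l0] at h8
  have h9 : C * X ^ (1 - δ) * log X ≤ C * X ^ (1 - δ) * (1 / C * X ^ δ) :=
    mul_le_mul_of_nonneg_left h6 (by positivity)
  have e : C * X ^ (1 - δ) * (1 / C * X ^ δ) = X := by
    rw [rpow_sub X0, rpow_one]; field_simp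
  linarith

end Pool.Agent.Results.MP_5d10af_nt.SecondTerm
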